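import Mathlib
import Pool.Agent.Q60.D3.Stm2

/-!
# Job CM1: elliptic curves of CM type
-/

namespace Pool.Agent.Q180.D3

open Matrix Pool.Agent.H204R3.CM Pool.Agent.H204R3.SP Pool.Agent.W437.HC Pool.Agent.W437.HD
  Pool.Agent.W437.HP Pool.Agent.W437.HR Pool.Agent.Q60.D3

/-- A complex number fixed by all automorphisms is rational. -/
theorem rational_of_fixed {z : ℂ} (h : ∀ σ : ℂ ≃+* ℂ, σ z = z) : ∃ q : ℚ, z = q := by
  by_contra hne
  push Not at hne
  obtain ⟨σ, hσ⟩ := exists_move hne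
  exact hσ (h σ)

/-- The two by two matrix. -/
def M2 {K : Type*} (a b c d : K) : Matrix (Fin 1 ⊕ Fin 1) (Fin 1 ⊕ Fin 1) K :=
  fromBlocks (of fun _ _ => a) (of fun _ _ => b) (of fun _ _ => c) (of fun _ _ => d)

theorem M2_mul {K : Type*} [CommRing K] (a b c d a' b' c' d' : K) :
    M2 a b c d * M2 a' b' c' d' =
      M2 (a * a' + b * c') (a * b' + b * d') (c * a' + d * c') (c * b' + d * d') := by
  unfold M2
  rw [fromBlocks_multiply]
  congr 1 <;> ext i j <;> simp [Matrix.mul_apply]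

theorem M2_map {K L : Type*} (f : K → L) (a b c d : K) :
    (M2 a b c d).map f = M2 (f a) (f b) (f c) (f d) := by
  unfold M2
  rw [fromBlocks_map]
  rfl

theorem M2_mulVec {K : Type*} [CommRing K] (a b c d x y : K) :
    M2 a b c d *ᵥ (Sum.elim (fun _ => x) (fun _ => y)) =
      Sum.elim (fun _ => a * x + b * y) (fun _ => c * x + d * y) := by
  unfold M2
  rw [fromBlocks_mulVec]
  funext i
  rcases i with i | i <;> simp [mulVec, dotProduct]

theorem M2_inj {K : Type*} {a b c d a' b' c' d' : K} (h : M2 a b c d = M2 a' b' c' d') :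
    a = a' ∧ b = b' ∧ c = c' ∧ d = d' := by
  refine ⟨?_, ?_, ?_, ?_⟩
  · exact congrFun (congrFun h (Sum.inl 0)) (Sum.inl 0)
  · exact congrFun (congrFun h (Sum.inl 0)) (Sum.inr 0)
  · exact congrFun (congrFun h (Sum.inr 0)) (Sum.inl 0)
  · exact congrFun (congrFun h (Sum.inr 0)) (Sum.inr 0)

theorem DZ_one (Z : Matrix (Fin 1) (Fin 1) ℂ) (hy : (Z 0 0).im ≠ 0) :
    DZ Z = M2 (Complex.I * (((Z 0 0).re : ℂ) / (Z 0 0).im))
      (Complex.I * (((Z 0 0).im : ℂ) + (Z 0 0).re ^ 2 / (Z 0 0).im))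
      (-Complex.I * (1 / ((Z 0 0).im : ℂ))) (-Complex.I * (((Z 0 0).re : ℂ) / (Z 0 0).im)) := by
  have hP : (imM Z)⁻¹ = of fun _ _ => (Z 0 0).im⁻¹ := by
    apply Matrix.inv_eq_right_inv
    ext i j
    fin_cases i
    fin_cases j
    simp [Matrix.mul_apply, hy]
  unfold DZ JR M2
  rw [hP]
  ext i j
  rcases i with i | i <;> rcases j with j | j <;> fin_cases i <;> fin_cases j <;>
    simp [Matrix.mul_apply] <;> ring

theorem cm1 : S_cm1 := by
  intro Z hpos hC
  have hy0 : 0 < (Z 0 0).im := by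
    have h := hpos.diag_pos (i := 0)
    simpa using h
  set x : ℂ := ((Z 0 0).re : ℂ) with hx
  set y : ℂ := ((Z 0 0).im : ℂ) with hy
  have hyne : y ≠ 0 := by
    rw [hy]
    exact_mod_cast hy0.ne'
  have hI := Complex.I_mul_I
  have hIne := Complex.I_ne_zero
  have hD := DZ_one Z hy0.ne'
  rw [← hx, ← hy] at hD
  -- the automorphisms fix `x` and `x ^ 2 + y ^ 2`
  have hfix : ∀ σ : ℂ ≃+* ℂ, σ x = x ∧ σ (x ^ 2 + y ^ 2) = x ^ 2 + y ^ 2 := by
    intro σ
    have h1 := hC σ
    rw [hD, M2_map, M2_mul, M2_mul] at h1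
    obtain ⟨h2, h3, h4, h5⟩ := M2_inj h1
    have hsy : σ y ≠ 0 := by
      rw [Ne, map_eq_zero_iff σ σ.injective]
      exact hyne
    have hsI : σ Complex.I ≠ 0 := by
      rw [Ne, map_eq_zero_iff σ σ.injective]
      exact hIne
    simp only [map_mul, map_div₀, map_neg, map_add, map_pow, map_one] at h2 h3 h4 h5
    have e1 : σ x = x := by
      field_simp at h4
      linear_combination (1 / 2) * h4
    refine ⟨e1, ?_⟩
    rw [e1] at h2
    rw [map_add, map_pow, map_pow, e1]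
    field_simp at h2
    linear_combination -h2
  obtain ⟨q, hq⟩ := rational_of_fixed fun σ => (hfix σ).1
  obtain ⟨p, hp⟩ := rational_of_fixed fun σ => (hfix σ).2
  -- the rational number `y ^ 2`
  have hr0 : 0 < p - q ^ 2 := by
    have h1 : (((Z 0 0).im ^ 2 : ℝ) : ℂ) = ((p - q ^ 2 : ℚ) : ℂ) := by
      push_cast
      rw [← hq, ← hp, ← hy]
      ring
    have h2 : (Z 0 0).im ^ 2 = ((p - q ^ 2 : ℚ) : ℝ) := by
      have h3 : (((p - q ^ 2 : ℚ) : ℝ) : ℂ) = ((p - q ^ 2 : ℚ) : ℂ) := by push_cast; ring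
      rw [← h3] at h1
      exact_mod_cast h1
    have h3 : (0 : ℝ) < ((p - q ^ 2 : ℚ) : ℝ) := by
      rw [← h2]
      positivity
    exact_mod_cast h3
  obtain ⟨r, hr⟩ : ∃ r : ℚ, r = p - q ^ 2 := ⟨_, rfl⟩
  rw [← hr] at hr0
  have hyr : y ^ 2 = (r : ℂ) := by
    rw [hr]
    push_cast
    rw [← hq, ← hp]
    ring
  obtain ⟨d, k, hdk, hsq⟩ := Nat.sq_mul_squarefree (r.num.toNat * r.den)
  have hnum : 0 < r.num := Rat.num_pos.2 hr0
  have hn : ((r.num.toNat : ℕ) : ℚ) = (r.num : ℚ) := by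
    have : ((r.num.toNat : ℕ) : ℤ) = r.num := Int.toNat_of_nonneg hnum.le
    exact_mod_cast this
  have hden : (r.den : ℚ) ≠ 0 := by exact_mod_cast r.den_nz
  have hk : (k : ℚ) ≠ 0 := by
    intro h0
    have h1 : k = 0 := by exact_mod_cast h0
    rw [h1] at hdk
    have h2 : r.num.toNat * r.den = 0 := by rw [← hdk]; ring
    rcases Nat.mul_eq_zero.1 h2 with h3 | h3
    · rw [h3] at hn
      have h4 : (r.num : ℚ) = 0 := by rw [← hn]; simp
      have h5 : r.num = 0 := by exact_mod_cast h4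
      omega
    · exact r.den_nz h3
  have hc : ((r.den : ℚ) / k) ^ 2 * r = d := by
    have h1 : (k : ℚ) ^ 2 * d = r.num * r.den := by
      rw [← hn]
      exact_mod_cast hdk
    have h2 : r * r.den = r.num := Rat.mul_den_eq_num r
    field_simp
    rw [← h2] at h1
    linear_combination -h1
  obtain ⟨c, hcd⟩ : ∃ c : ℚ, c = (r.den : ℚ) / k := ⟨_, rfl⟩
  rw [← hcd] at hc
  have hcne : c ≠ 0 := by
    rw [hcd]
    exact div_ne_zero hden hk
  have hcneC : (c : ℂ) ≠ 0 := by exact_mod_cast hcne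
  have hcC : (c : ℂ) ^ 2 * y ^ 2 = d := by
    rw [hyr]
    exact_mod_cast congrArg (fun t : ℚ => (t : ℂ)) hc
  have hpxy : (p : ℂ) = x ^ 2 + y ^ 2 := hp.symm
  have hφD : DZ Z = (-Complex.I / (y * c)) • cK ℂ (M2 (-(q * c)) (-(p * c)) c (q * c)) := by
    unfold cK
    rw [M2_map, hD]
    unfold M2
    rw [fromBlocks_smul]
    push_cast
    rw [← hq, hpxy]
    congr 1 <;> ext i j <;> simp <;> field_simp
    ring
  have hDu : DZ Z *ᵥ (Sum.elim (fun _ => -(x - Complex.I * y)) (fun _ => 1)) =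
      Sum.elim (fun _ => -(x - Complex.I * y)) (fun _ => 1) := by
    rw [hD, M2_mulVec]
    funext i
    rcases i with i | i
    · simp only [Sum.elim_inl]
      field_simp
      linear_combination (x * y) * hI
    · simp only [Sum.elim_inr]
      field_simp
      linear_combination (-y : ℂ) * hI
  have hDv : ∀ t : ℂ, DZ Z *ᵥ (Sum.elim (fun _ => -t * (x + Complex.I * y)) (fun _ => t)) =
      -(Sum.elim (fun _ => -t * (x + Complex.I * y)) (fun _ => t)) := by
    intro t
    rw [hD, M2_mulVec]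
    funext i
    rcases i with i | i
    · simp only [Sum.elim_inl, Pi.neg_apply]
      field_simp
      linear_combination (-t * x * y) * hI
    · simp only [Sum.elim_inr, Pi.neg_apply]
      field_simp
      linear_combination (t * y) * hI
  have hφ : ∀ w : Fin 1 ⊕ Fin 1 → ℂ, cK ℂ (M2 (-(q * c)) (-(p * c)) c (q * c)) *ᵥ w =
      (Complex.I * y * c) • (DZ Z *ᵥ w) := by
    intro w
    rw [hφD, smul_mulVec, smul_smul]
    have h1 : Complex.I * y * c * (-Complex.I / (y * c)) = 1 := by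
      field_simp
      linear_combination -hI
    rw [h1, one_smul]
  refine ⟨{
    hg := Or.inl rfl
    φ := M2 (-(q * c)) (-(p * c)) c (q * c)
    d := d
    hd := hsq
    sq := ?_
    com := ?_
    skew := ?_
    μ := Complex.I * y * c
    hμ := ?_
    u := fun _ => Sum.elim (fun _ => -(x - Complex.I * y)) (fun _ => 1)
    v := fun _ => Sum.elim (fun _ => -(1 / (2 * Complex.I * y)) * (x + Complex.I * y))
      (fun _ => 1 / (2 * Complex.I * y))
    hu := ?_
    hv := ?_
    dual := ?_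
    hDu := ?_
    hDv := ?_ }⟩
  · rw [M2_mul]
    have h1 : (1 : Matrix (Fin 1 ⊕ Fin 1) (Fin 1 ⊕ Fin 1) ℚ) = M2 1 0 0 1 := by
      ext i j
      rcases i with i | i <;> rcases j with j | j <;> fin_cases i <;> fin_cases j <;> simp [M2]
    rw [h1]
    have h2 : ((d : ℚ) • (M2 1 0 0 1 : Matrix (Fin 1 ⊕ Fin 1) (Fin 1 ⊕ Fin 1) ℚ)) =
        M2 (d : ℚ) 0 0 d := by
      ext i j
      rcases i with i | i <;> rcases j with j | j <;> simp [M2]
    have h3 : -(M2 (d : ℚ) 0 0 d : Matrix (Fin 1 ⊕ Fin 1) (Fin 1 ⊕ Fin 1) ℚ) =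
        M2 (-(d : ℚ)) 0 0 (-d) := by
      ext i j
      rcases i with i | i <;> rcases j with j | j <;> simp [M2]
    rw [h2, h3]
    congr 1
    · rw [← hc, hr]; ring
    · ring
    · ring
    · rw [← hc, hr]; ring
  · rw [hφD, mul_smul_comm, smul_mul_assoc]
  · ext i j
    rcases i with i | i <;> rcases j with j | j <;> fin_cases i <;> fin_cases j <;>
      simp [M2, Om, Matrix.mul_apply]
  · linear_combination (-1 : ℂ) * hcC + (y ^ 2 * c ^ 2) * hI
  · intro k
    rw [hφ, hDu]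
  · intro k
    rw [hφ, hDv]
    simp
  · intro k l
    have h1 : Om 1 ℂ = M2 0 1 (-1) 0 := by
      ext i j
      rcases i with i | i <;> rcases j with j | j <;> fin_cases i <;> fin_cases j <;> simp [M2, Om]
    rw [h1, M2_mulVec, if_pos (Subsingleton.elim k l), sumElim_dotProduct_sumElim]
    simp only [dotProduct, Finset.univ_unique, Finset.sum_singleton]
    field_simp
    ring
  · intro k
    have h1 : (k : ℕ) ≠ 2 := by have := k.2; omega
    rw [if_neg h1, one_smul]
    exact hDu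
  · intro k
    have h1 : (k : ℕ) ≠ 2 := by have := k.2; omega
    rw [if_neg h1, neg_one_smul]
    exact hDv _

end Pool.Agent.Q180.D3
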