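import Mathlib
import Pool.Agent.Q60.D3.Stm2
import Pool.Agent.W548.Odd.LA
import Pool.Agent.W437.HQ.Endo

/-!
# Job CMD: simple abelian varieties whose Hodge operator commutes with its conjugates
-/

namespace Pool.Agent.Q180.D3

open Matrix Pool.Agent.H204R3.CM Pool.Agent.H204R3.SP Pool.Agent.W437.HC Pool.Agent.W437.HD
  Pool.Agent.W437.HP Pool.Agent.W437.HR Pool.Agent.W437.HQ Pool.Agent.W548.Odd Pool.Agent.Q60.D3

variable {g : ℕ} {Z : Matrix (Fin g) (Fin g) ℂ}

/-- The images of the Hodge operator under rational linear functions commute with it. -/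
theorem map_comm (hC : Comm Z) (lam : ℂ →ₗ[ℚ] ℚ) :
    cq ((DZ Z).map lam) * DZ Z = DZ Z * cq ((DZ Z).map lam) := by
  let C : Submodule ℂ (Matrix (Fin g ⊕ Fin g) (Fin g ⊕ Fin g) ℂ) :=
    { carrier := {X | ∀ σ : ℂ ≃+* ℂ, (DZ Z).map σ * X = X * (DZ Z).map σ}
      zero_mem' := by intro σ; simp
      add_mem' := by
        intro a b ha hb σ
        rw [Matrix.mul_add, Matrix.add_mul, ha σ, hb σ]
      smul_mem' := by
        intro c a ha σ
        rw [Matrix.mul_smul, Matrix.smul_mul, ha σ] }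
  have hstab : ∀ (σ : ℂ ≃+* ℂ), ∀ X ∈ C, X.map σ ∈ C := by
    intro σ X hX τ
    have h1 := hX (τ.trans σ.symm)
    have h2 := congrArg (fun M : Matrix (Fin g ⊕ Fin g) (Fin g ⊕ Fin g) ℂ => M.map σ) h1
    simp only [Matrix.map_mul] at h2
    have h3 : ((DZ Z).map (τ.trans σ.symm)).map σ = (DZ Z).map τ := by
      ext i j
      simp
    rwa [h3] at h2
  have hD : DZ Z ∈ C := fun σ => hC σ
  have h := map_mem_of_aut C hstab hD ((Algebra.linearMap ℚ ℂ).comp lam) (RingEquiv.refl ℂ)
  have h1 : (DZ Z).map (RingEquiv.refl ℂ) = DZ Z := by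
    ext i j
    rfl
  rw [h1] at h
  exact h.symm

theorem map_mul_map (hC : Comm Z) (lam lam' : ℂ →ₗ[ℚ] ℚ) :
    (DZ Z).map lam * (DZ Z).map lam' = (DZ Z).map lam' * (DZ Z).map lam := by
  have h := map_comm hC lam
  ext i j
  have h1 := congrArg lam' (congrFun (congrFun h i) j)
  rw [Matrix.mul_apply, Matrix.mul_apply, map_sum, map_sum] at h1
  rw [Matrix.mul_apply, Matrix.mul_apply]
  have e1 : ∀ (a : ℚ) (z : ℂ), lam' ((a : ℂ) * z) = a * lam' z := by
    intro a z
    rw [← Rat.smul_def, map_smul, smul_eq_mul]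
  have e2 : ∀ k, lam' (cq ((DZ Z).map lam) i k * DZ Z k j) =
      (DZ Z).map lam i k * (DZ Z).map lam' k j := fun k => e1 _ _
  have e3 : ∀ k, lam' (DZ Z i k * cq ((DZ Z).map lam) k j) =
      (DZ Z).map lam' i k * (DZ Z).map lam k j := by
    intro k
    rw [mul_comm (DZ Z i k)]
    rw [show lam' (cq ((DZ Z).map lam) k j * DZ Z i k) = (DZ Z).map lam k j * lam' (DZ Z i k) from
      e1 _ _, mul_comm]
    rfl
  simp only [e2, e3] at h1
  exact h1

/-- The algebra generated by the images of the Hodge operator. -/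
noncomputable def RR (Z : Matrix (Fin g) (Fin g) ℂ) :
    Subalgebra ℚ (Matrix (Fin g ⊕ Fin g) (Fin g ⊕ Fin g) ℚ) :=
  Algebra.adjoin ℚ {M | ∃ lam : ℂ →ₗ[ℚ] ℚ, M = (DZ Z).map lam}

theorem RR_gen (lam : ℂ →ₗ[ℚ] ℚ) : (DZ Z).map lam ∈ RR Z := Algebra.subset_adjoin ⟨lam, rfl⟩

theorem RR_comm (hC : Comm Z) {a b : Matrix (Fin g ⊕ Fin g) (Fin g ⊕ Fin g) ℚ} (ha : a ∈ RR Z)
    (hb : b ∈ RR Z) : a * b = b * a := by
  have h1 : ∀ (lam : ℂ →ₗ[ℚ] ℚ) (a : Matrix (Fin g ⊕ Fin g) (Fin g ⊕ Fin g) ℚ), a ∈ RR Z →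
      a * (DZ Z).map lam = (DZ Z).map lam * a := by
    intro lam a ha
    unfold RR at ha
    induction ha using Algebra.adjoin_induction with
    | mem x hx =>
      obtain ⟨lam', rfl⟩ := hx
      exact map_mul_map hC lam' lam
    | algebraMap r => exact Algebra.commutes r _
    | add x y _ _ hx hy => rw [Matrix.add_mul, Matrix.mul_add, hx, hy]
    | mul x y _ _ hx hy => rw [Matrix.mul_assoc, hy, ← Matrix.mul_assoc, hx, Matrix.mul_assoc]
  unfold RR at hb
  induction hb using Algebra.adjoin_induction with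
  | mem x hx =>
    obtain ⟨lam, rfl⟩ := hx
    exact h1 lam a ha
  | algebraMap r => exact (Algebra.commutes r a).symm
  | add x y _ _ hx hy => rw [Matrix.add_mul, Matrix.mul_add, hx, hy]
  | mul x y _ _ hx hy => rw [← Matrix.mul_assoc, hx, Matrix.mul_assoc, hy, Matrix.mul_assoc]

theorem RR_D (hC : Comm Z) {a : Matrix (Fin g ⊕ Fin g) (Fin g ⊕ Fin g) ℚ} (ha : a ∈ RR Z) :
    cq a * DZ Z = DZ Z * cq a := by
  unfold RR at ha
  induction ha using Algebra.adjoin_induction with
  | mem x hx =>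
    obtain ⟨lam, rfl⟩ := hx
    exact map_comm hC lam
  | algebraMap r =>
    have h1 : cq (algebraMap ℚ (Matrix (Fin g ⊕ Fin g) (Fin g ⊕ Fin g) ℚ) r) =
        algebraMap ℂ (Matrix (Fin g ⊕ Fin g) (Fin g ⊕ Fin g) ℂ) r := by
      ext i j
      simp only [cq, Matrix.map_apply, Matrix.algebraMap_matrix_apply]
      split_ifs <;> simp
    rw [h1]
    exact Algebra.commutes _ _
  | add x y _ _ hx hy =>
    have h1 : cq (x + y) = cq x + cq y := by
      ext i j
      simp [cq]
    rw [h1, Matrix.add_mul, Matrix.mul_add, hx, hy]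
  | mul x y _ _ hx hy =>
    rw [cq_mul, Matrix.mul_assoc, hy, ← Matrix.mul_assoc, hx, Matrix.mul_assoc]

/-- The complex structure preserves the real span of a rational subspace stable under the images
of the Hodge operator. -/
theorem JR_span (U : Submodule ℚ (Fin g ⊕ Fin g → ℚ))
    (hU : ∀ (lam : ℂ →ₗ[ℚ] ℚ), ∀ u ∈ U, (DZ Z).map lam *ᵥ u ∈ U) {u : Fin g ⊕ Fin g → ℚ}
    (hu : u ∈ U) : ∃ (s : Finset (Module.Basis.ofVectorSpaceIndex ℚ ℝ))
      (w : Module.Basis.ofVectorSpaceIndex ℚ ℝ → Fin g ⊕ Fin g → ℚ), (∀ b, w b ∈ U) ∧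
      JR Z *ᵥ (fun i => ((u i : ℚ) : ℝ)) =
        ∑ b ∈ s, (Module.Basis.ofVectorSpace ℚ ℝ b) • fun i => ((w b i : ℚ) : ℝ) := by
  classical
  set B := Module.Basis.ofVectorSpace ℚ ℝ with hB
  set x : Fin g ⊕ Fin g → ℝ := JR Z *ᵥ (fun i => ((u i : ℚ) : ℝ)) with hx
  refine ⟨Finset.univ.biUnion fun i => (B.repr (x i)).support, fun b i => B.repr (x i) b, ?_, ?_⟩
  · intro b
    let lam : ℂ →ₗ[ℚ] ℚ :=
      { toFun := fun z => B.repr (Complex.I * z).re b
        map_add' := by intro y z; simp [mul_add]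
        map_smul' := by
          intro a z
          have h1 : (Complex.I * (a • z)).re = a • (Complex.I * z).re := by
            rw [Rat.smul_def, Rat.smul_def]
            simp
          rw [h1, map_smul]
          rfl }
    have h2 : (fun i => B.repr (x i) b) = (DZ Z).map lam *ᵥ u := by
      funext i
      rw [hx]
      simp only [mulVec, dotProduct, Matrix.map_apply]
      rw [map_sum, Finsupp.finsetSum_apply]
      refine Finset.sum_congr rfl fun k _ => ?_
      have h3 : JR Z i k * ((u k : ℚ) : ℝ) = u k • JR Z i k := by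
        rw [Rat.smul_def, mul_comm]
      rw [h3, map_smul, Finsupp.smul_apply, smul_eq_mul, mul_comm]
      congr 1
      change _ = B.repr (Complex.I * DZ Z i k).re b
      have h4 : (Complex.I * DZ Z i k).re = JR Z i k := by
        simp [DZ]
      rw [h4]
    change (fun i => B.repr (x i) b) ∈ U
    rw [h2]
    exact hU lam u hu
  · funext i
    rw [Finset.sum_apply]
    simp only [Pi.smul_apply, smul_eq_mul]
    have h2 : x i = ∑ b ∈ (B.repr (x i)).support, B.repr (x i) b • B b := by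
      conv_lhs => rw [← B.linearCombination_repr (x i)]
      rfl
    conv_lhs => rw [h2]
    rw [← Finset.sum_subset (Finset.subset_biUnion_of_mem
      (fun i => (B.repr (x i)).support) (Finset.mem_univ i))]
    · refine Finset.sum_congr rfl fun b _ => ?_
      rw [Rat.smul_def, mul_comm]
    · intro b _ hb
      rw [Finsupp.notMem_support_iff.1 hb]
      simp

theorem cmd : S_cmd := by
  intro A g Z e C hZ hpos hper hs hC
  have hY : IsUnit (imM Z).det := hpos.isUnit.map Matrix.detMonoidHom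
  -- the transport of the matrices
  let Φ : Matrix (Fin g ⊕ Fin g) (Fin g ⊕ Fin g) ℚ ≃ₐ[ℚ] Module.End ℚ A.H :=
    (Matrix.toLinAlgEquiv').trans (e.symm.conjAlgEquiv ℚ)
  have hΦ : ∀ M w, Φ M w = e.symm (M *ᵥ e w) := fun M w => rfl
  -- the simplicity in terms of the matrices
  have hsimp : ∀ U : Submodule ℚ A.H, (∀ (lam : ℂ →ₗ[ℚ] ℚ), ∀ u ∈ U, Φ ((DZ Z).map lam) u ∈ U) →
      U = ⊥ ∨ U = ⊤ := by
    intro U hU
    apply hs U
    have hgen : ∀ u ∈ U, Complex.I • A.per u ∈ Submodule.span ℝ (A.per '' (U : Set A.H)) := by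
      intro u hu
      obtain ⟨s, w, hw, hsum⟩ := JR_span (Z := Z) (U.map (e : A.H →ₗ[ℚ] _))
        (fun lam v hv => by
          obtain ⟨v', hv', rfl⟩ := hv
          exact ⟨Φ ((DZ Z).map lam) v', hU lam v' hv', by rw [hΦ]; simp⟩)
        (u := e u) ⟨u, hu, rfl⟩
      have h1 : C (Complex.I • A.per u) =
          C (∑ b ∈ s, (Module.Basis.ofVectorSpace ℚ ℝ b) • A.per (e.symm (w b))) := by
        rw [map_smul, hper, perOne_eq, ← perR_JR Z hY, hsum, map_sum, map_sum]
        refine Finset.sum_congr rfl fun b _ => ?_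
        rw [map_smul]
        have h2 : ((Module.Basis.ofVectorSpace ℚ ℝ b) • A.per (e.symm (w b)) : A.T) =
            (((Module.Basis.ofVectorSpace ℚ ℝ b : ℝ) : ℂ)) • A.per (e.symm (w b)) :=
          (Complex.coe_smul _ _).symm
        rw [h2, map_smul, hper, perOne_eq, LinearEquiv.apply_symm_apply, Complex.coe_smul]
      rw [C.injective h1]
      refine Submodule.sum_mem _ fun b _ => Submodule.smul_mem _ _ (Submodule.subset_span ?_)
      refine ⟨e.symm (w b), ?_, rfl⟩
      obtain ⟨v', hv', h2⟩ := hw b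
      have h3 : e.symm (w b) = v' := by
        rw [← h2]
        simp
      rw [h3]
      exact hv'
    intro x hx
    induction hx using Submodule.span_induction with
    | mem x hx =>
      obtain ⟨u, hu, rfl⟩ := hx
      exact hgen u hu
    | zero => rw [smul_zero]; exact Submodule.zero_mem _
    | add x y _ _ hx hy => rw [smul_add]; exact Submodule.add_mem _ hx hy
    | smul a x _ hx =>
      rw [smul_comm]
      exact Submodule.smul_mem _ _ hx
  have hker : ∀ a ∈ RR Z, LinearMap.ker (Φ a) = ⊥ ∨ LinearMap.ker (Φ a) = ⊤ := by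
    intro a ha
    apply hsimp
    intro lam u hu
    rw [LinearMap.mem_ker] at hu ⊢
    have h1 : Φ a (Φ ((DZ Z).map lam) u) = Φ ((DZ Z).map lam) (Φ a u) := by
      have h2 := congrArg Φ (RR_comm hC ha (RR_gen lam))
      rw [map_mul, map_mul] at h2
      exact LinearMap.congr_fun h2 u
    rw [h1, hu, map_zero]
  refine ⟨(RR Z).map (Φ : Matrix (Fin g ⊕ Fin g) (Fin g ⊕ Fin g) ℚ →ₐ[ℚ] Module.End ℚ A.H),
    ?_, ?_, ?_, ?_⟩
  · rintro _ ⟨a, ha, rfl⟩
    have hend := endo_of_comm hY (RR_D hC ha)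
    refine ⟨(C.symm : (Fin g → ℂ) →ₗ[ℂ] A.T) ∘ₗ (PZ Z * cq a * r10 g).mulVecLin ∘ₗ
      (C : A.T →ₗ[ℂ] (Fin g → ℂ)), fun w => ?_⟩
    change C.symm ((PZ Z * cq a * r10 g) *ᵥ (C (A.per w))) = A.per (Φ a w)
    rw [hper, ← hend, LinearEquiv.symm_apply_eq, hper, hΦ, LinearEquiv.apply_symm_apply]
  · rintro _ ⟨a, ha, rfl⟩ _ ⟨b, hb, rfl⟩
    change Φ a * Φ b = Φ b * Φ a
    rw [← map_mul, ← map_mul, RR_comm hC ha hb]
  · rintro _ ⟨a, ha, rfl⟩ h0
    change Φ a * Φ a = 0 at h0
    change Φ a = 0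
    rcases hker a ha with h1 | h1
    · have h2 : ∀ w, Φ a w = 0 := by
        intro w
        have h3 : Φ a (Φ a w) = 0 := LinearMap.congr_fun h0 w
        exact (LinearMap.ker_eq_bot'.1 h1) _ h3
      exact LinearMap.ext h2
    · exact LinearMap.ker_eq_top.1 h1
  · rcases subsingleton_or_nontrivial A.H with h0 | h0
    · have h1 : Subsingleton (Module.End ℚ A.H) := ⟨fun a b => LinearMap.ext fun w =>
        Subsingleton.elim _ _⟩
      rw [Module.finrank_zero_of_subsingleton, Module.finrank_zero_of_subsingleton]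
    · obtain ⟨x, hx⟩ := exists_ne (0 : A.H)
      set S := (RR Z).map (Φ : Matrix (Fin g ⊕ Fin g) (Fin g ⊕ Fin g) ℚ →ₐ[ℚ] Module.End ℚ A.H)
      let ev : S →ₗ[ℚ] A.H :=
        { toFun := fun s => s.1 x
          map_add' := fun s t => rfl
          map_smul' := fun c s => rfl }
      have hinj : Function.Injective ev := by
        rw [← LinearMap.ker_eq_bot, LinearMap.ker_eq_bot']
        rintro ⟨s, a, ha, hs'⟩ h1
        have hs2 : s = Φ a := hs'.symm
        subst hs2
        apply Subtype.ext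
        change Φ a = 0
        have h2 : Φ a x = 0 := h1
        rcases hker a ha with h3 | h3
        · exact absurd ((LinearMap.ker_eq_bot'.1 h3) x h2) hx
        · exact LinearMap.ker_eq_top.1 h3
      have hsurj : Function.Surjective ev := by
        rw [← LinearMap.range_eq_top]
        rcases hsimp (LinearMap.range ev) (by
          rintro lam _ ⟨s, rfl⟩
          refine ⟨⟨Φ ((DZ Z).map lam), (DZ Z).map lam, RR_gen lam, rfl⟩ * s, rfl⟩) with h1 | h1
        · exfalso
          apply hx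
          have h2 : x ∈ LinearMap.range ev := ⟨1, rfl⟩
          rw [h1] at h2
          exact h2
        · exact h1
      exact LinearEquiv.finrank_eq (LinearEquiv.ofBijective ev ⟨hinj, hsurj⟩)

end Pool.Agent.Q180.D3
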