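import Mathlib
import Pool.Agent.Q60.D3.Stm2
import Pool.Agent.W437.HP.FFTM

/-!
# Job EXP: expansion of a Hodge tensor with the first fundamental theorem
-/

namespace Pool.Agent.Q180.D3

open Matrix Finset Pool.Agent.H204R3.CM Pool.Agent.H204R3.SP Pool.Agent.W437.HC
  Pool.Agent.W437.HD Pool.Agent.W437.HP Pool.Agent.W437.HR Pool.Agent.Q60.D3
  Pool.Agent.Q59.GC

variable {N : ℕ} {I : Type} {Λ : Labels N I} [DecidableEq I] {ε : Letter Λ → ℂ}

/-- The words in the letters at the positions of a product of determinants and pairings. -/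
def wordEquiv {κ L P R : Type} {β : L → Type} (e : (Σ j : L, β j) ⊕ (P × Fin 2) ≃ κ) :
    (κ → R) ≃ (∀ j, β j → R) × (P → R × R) where
  toFun X := (fun j a => X (e (Sum.inl ⟨j, a⟩)), fun s => (X (e (Sum.inr (s, 0))),
    X (e (Sum.inr (s, 1)))))
  invFun Y := fun k => Sum.elim (fun z : Σ j : L, β j => Y.1 z.1 z.2)
    (fun z : P × Fin 2 => if z.2 = 0 then (Y.2 z.1).1 else (Y.2 z.1).2) (e.symm k)
  left_inv X := by
    funext k
    obtain ⟨z, rfl⟩ := e.surjective k
    rcases z with ⟨j, a⟩ | ⟨s, i⟩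
    · simp
    · fin_cases i <;> simp
  right_inv Y := by
    refine Prod.ext ?_ ?_
    · funext j a
      simp
    · funext s
      simp

/-- The sum over all words of a product. -/
theorem sum_word {κ L P R : Type} {β : L → Type} [Fintype κ] [DecidableEq κ] [Fintype L]
    [DecidableEq L] [Fintype P] [DecidableEq P] [∀ j, Fintype (β j)] [∀ j, DecidableEq (β j)]
    [Fintype R] [DecidableEq R]
    (e : (Σ j : L, β j) ⊕ (P × Fin 2) ≃ κ) (f : ∀ j, (β j → R) → ℂ) (g : P → R → R → ℂ) :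
    ∑ X : κ → R, (∏ j, f j fun a => X (e (Sum.inl ⟨j, a⟩))) *
        ∏ s, g s (X (e (Sum.inr (s, 0)))) (X (e (Sum.inr (s, 1)))) =
      (∏ j, ∑ x : β j → R, f j x) * ∏ s, ∑ x, ∑ y, g s x y := by
  have h1 : ∀ s, ∑ x, ∑ y, g s x y = ∑ z : R × R, g s z.1 z.2 := by
    intro s
    rw [Fintype.sum_prod_type]
  simp only [h1]
  rw [Finset.prod_univ_sum, Finset.prod_univ_sum, Fintype.piFinset_univ, Fintype.piFinset_univ,
    Finset.sum_mul_sum, ← Fintype.sum_prod_type']
  exact Fintype.sum_equiv (wordEquiv e) _ _ fun X => rfl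

/-- The transformation of a determinant. -/
theorem sum_detOf (i : I) [Fintype (Letter Λ)] (M : Fin (Λ.dim i) → Letter Λ → ℂ) :
    ∑ x : Fin (Λ.dim i) → Letter Λ, detOf i x * ∏ a, M a (x a) =
      (Matrix.of fun a b : Fin (Λ.dim i) => M a ⟨i, b⟩).det := by
  classical
  have h1 : (Matrix.of fun a b : Fin (Λ.dim i) => M a ⟨i, b⟩) =
      fun a => ∑ r : Letter Λ, M a r • fun b : Fin (Λ.dim i) =>
        if r = ⟨i, b⟩ then (1 : ℂ) else 0 := by
    funext a b
    rw [Finset.sum_apply]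
    simp
  have h2 := (Matrix.detRowAlternating (R := ℂ) (n := Fin (Λ.dim i))).toMultilinearMap.map_sum
    (fun a (r : Letter Λ) => M a r • fun b : Fin (Λ.dim i) =>
        if r = ⟨i, b⟩ then (1 : ℂ) else 0)
  have h3 : (Matrix.of fun a b : Fin (Λ.dim i) => M a ⟨i, b⟩).det =
      Matrix.detRowAlternating.toMultilinearMap (fun a => ∑ r : Letter Λ,
        M a r • fun b : Fin (Λ.dim i) => if r = ⟨i, b⟩ then (1 : ℂ) else 0) := by
    rw [h1]
    rfl
  rw [h3, h2]
  refine Finset.sum_congr rfl fun x _ => ?_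
  rw [MultilinearMap.map_smul_univ, smul_eq_mul, mul_comm]
  rfl

/-- The transformation of a pairing. -/
theorem sum_pairOf [Fintype I] (i : I) (f g : Letter Λ → ℂ) :
    ∑ x, ∑ y, pairOf ε i x y * (f x * g y) =
      ∑ b : Fin (Λ.dim i), ε ⟨i, b⟩ * (f ⟨i, b⟩ * g (dual ⟨i, b⟩)) := by
  rw [Fintype.sum_sigma, Finset.sum_eq_single i]
  · refine Finset.sum_congr rfl fun b _ => ?_
    rw [Finset.sum_eq_single (dual ⟨i, b⟩)]
    · simp [pairOf]
    · intro y _ hy
      simp [pairOf, hy]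
    · intro h
      exact absurd (Finset.mem_univ _) h
  · intro j _ hj
    refine Finset.sum_eq_zero fun b _ => Finset.sum_eq_zero fun y _ => ?_
    simp [pairOf, hj]
  · intro h
    exact absurd (Finset.mem_univ _) h

/-- The transformation of a product of determinants and pairings. -/
theorem TmM_prodOf [Fintype I] {B : Type} [Fintype B] [DecidableEq B] {κ L P : Type} [Fintype κ]
    [DecidableEq κ] [Fintype L] [DecidableEq L] [Fintype P] [DecidableEq P] (μ : L → I) (ν : P → I)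
    (e : (Σ j : L, Fin (Λ.dim (μ j))) ⊕ (P × Fin 2) ≃ κ) (E : κ → Matrix (Letter Λ) B ℂ) :
    TmM E (prodOf ε μ ν e) = fun w => (∏ j, (Matrix.of fun a b : Fin (Λ.dim (μ j)) =>
          E (e (Sum.inl ⟨j, a⟩)) ⟨μ j, b⟩ (w (e (Sum.inl ⟨j, a⟩)))).det) *
        ∏ s, ∑ x : Fin (Λ.dim (ν s)), ε ⟨ν s, x⟩ *
          (E (e (Sum.inr (s, 0))) ⟨ν s, x⟩ (w (e (Sum.inr (s, 0)))) *
            E (e (Sum.inr (s, 1))) (dual ⟨ν s, x⟩) (w (e (Sum.inr (s, 1))))) := by
  funext w
  rw [TmM_apply]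
  have h1 : ∀ X : κ → Letter Λ, prodOf ε μ ν e X * ∏ k, E k (X k) (w k) =
      (∏ j, (detOf (μ j) (fun a => X (e (Sum.inl ⟨j, a⟩))) *
        ∏ a, E (e (Sum.inl ⟨j, a⟩)) (X (e (Sum.inl ⟨j, a⟩))) (w (e (Sum.inl ⟨j, a⟩))))) *
      ∏ s, (pairOf ε (ν s) (X (e (Sum.inr (s, 0)))) (X (e (Sum.inr (s, 1)))) *
        (E (e (Sum.inr (s, 0))) (X (e (Sum.inr (s, 0)))) (w (e (Sum.inr (s, 0)))) *
          E (e (Sum.inr (s, 1))) (X (e (Sum.inr (s, 1)))) (w (e (Sum.inr (s, 1)))))) := by
    intro X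
    rw [← Equiv.prod_comp e (fun k => E k (X k) (w k)), Fintype.prod_sum_type,
      Fintype.prod_sigma, Fintype.prod_prod_type]
    simp only [Fin.prod_univ_two, Finset.prod_mul_distrib, prodOf]
    ring
  rw [Finset.sum_congr rfl fun X _ => h1 X]
  rw [sum_word e (fun j x => detOf (μ j) x *
      ∏ a, E (e (Sum.inl ⟨j, a⟩)) (x a) (w (e (Sum.inl ⟨j, a⟩))))
    (fun s x y => pairOf ε (ν s) x y * (E (e (Sum.inr (s, 0))) x (w (e (Sum.inr (s, 0)))) *
          E (e (Sum.inr (s, 1))) y (w (e (Sum.inr (s, 1))))))]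
  congr 1
  · refine Finset.prod_congr rfl fun j _ => ?_
    exact sum_detOf (μ j) (fun a r => E (e (Sum.inl ⟨j, a⟩)) r (w (e (Sum.inl ⟨j, a⟩))))
  · refine Finset.prod_congr rfl fun s _ => ?_
    exact sum_pairOf (ν s) (fun x => E (e (Sum.inr (s, 0))) x (w (e (Sum.inr (s, 0)))))
      (fun y => E (e (Sum.inr (s, 1))) y (w (e (Sum.inr (s, 1)))))

omit [DecidableEq I] in
/-- The words of a form killed by diagonal matrices. -/
theorem diag_kills {B : Type} [Fintype B] [DecidableEq B] {D : Matrix B B ℂ} {𝒜 : Type}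
    {ev : 𝒜 → Letter Λ → B → ℂ} {κ : Type} [Fintype κ] [DecidableEq κ] {c : (κ → B) → ℚ}
    (hc : IsH D c) {X : Matrix B B ℂ} (hX : X ∈ lieM D ℂ) (m : Letter Λ → ℂ)
    (hXe : ∀ a r, X *ᵥ ev a r = m r • ev a r) (α : κ → 𝒜) {w : κ → Letter Λ}
    (hw : evalF (cst ℂ c) (fun k => ev (α k) (w k)) ≠ 0) : ∑ k, m (w k) = 0 := by
  by_contra h
  exact hw (evalF_eig (lieM_kills D hX hc) (fun k => m (w k)) _ (fun k => hXe _ _) h)

omit [DecidableEq I] in
/-- The weights of a word and of its determinants. -/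
theorem sum_weight [Fintype I] [DecidableEq I] (horth : ∀ i, Λ.orth i = false) {κ : Type}
    [Fintype κ] (w : κ → Letter Λ) (heq : ∀ (i : I) (a b : Fin (Λ.dim i)),
      net w ⟨i, a⟩ = net w ⟨i, b⟩) (u : I → ℂ) (hu : ∀ i, u (Λ.star i) = -u i) :
    ∑ j : Σ i : I, Fin (mult w i), (Λ.dim j.1 : ℂ) * u j.1 = ∑ k, u (w k).1 := by
  -- the numbers of the positions of the classes
  obtain ⟨n, hn⟩ : ∃ n : I → ℤ, n = fun i => ∑ k, if (w k).1 = i then (1 : ℤ) else 0 := ⟨_, rfl⟩
  have e1 : ∀ i, n i - n (Λ.star i) = Λ.dim i * ((mult w i : ℤ) - mult w (Λ.star i)) := by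
    intro i
    have h1 := sum_net w i
    have h2 : ∑ a : Fin (Λ.dim i), net w ⟨i, a⟩ =
        ∑ _a : Fin (Λ.dim i), ((mult w i : ℤ) - mult w (Λ.star i)) := by
      refine Finset.sum_congr rfl fun a _ => ?_
      exact net_eq_mult heq (x := ⟨i, a⟩) (by rw [horth]; simp)
    rw [h2, Finset.sum_const, Finset.card_univ, Fintype.card_fin, nsmul_eq_mul,
      Finset.sum_sub_distrib] at h1
    rw [h1, hn]
    congr 1
    refine Finset.sum_congr rfl fun k _ => ?_
    by_cases h3 : Λ.star (w k).1 = i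
    · rw [if_pos h3, if_pos (by rw [← h3, Λ.star_star])]
    · rw [if_neg h3, if_neg fun h4 => h3 (by rw [h4, Λ.star_star])]
  have e2 : ∀ f : I → ℂ, ∑ i, u i * f (Λ.star i) = -∑ i, u i * f i := by
    intro f
    rw [← Finset.sum_neg_distrib]
    refine Fintype.sum_equiv ⟨Λ.star, Λ.star, Λ.star_star, Λ.star_star⟩ _ _ fun i => ?_
    change u i * f (Λ.star i) = -(u (Λ.star i) * f (Λ.star i))
    rw [hu]
    ring
  have e3 : ∑ k, u (w k).1 = ∑ i, u i * (n i : ℂ) := by
    rw [hn]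
    push_cast
    simp only [Finset.mul_sum]
    rw [Finset.sum_comm]
    refine Finset.sum_congr rfl fun k _ => ?_
    simp
  have e4 : ∑ j : Σ i : I, Fin (mult w i), (Λ.dim j.1 : ℂ) * u j.1 =
      ∑ i, u i * ((Λ.dim i : ℂ) * (mult w i : ℂ)) := by
    rw [Fintype.sum_sigma]
    refine Finset.sum_congr rfl fun i _ => ?_
    simp only
    rw [Finset.sum_const, Finset.card_univ, Fintype.card_fin, nsmul_eq_mul]
    ring
  have e5 : ∑ i, u i * ((n i : ℂ) - n (Λ.star i)) =
      ∑ i, u i * ((Λ.dim i : ℂ) * ((mult w i : ℂ) - mult w (Λ.star i))) := by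
    refine Finset.sum_congr rfl fun i _ => ?_
    have h1 := e1 i
    have h2 : ((n i : ℂ) - n (Λ.star i)) = (Λ.dim i : ℂ) * ((mult w i : ℂ) - mult w (Λ.star i)) := by
      exact_mod_cast congrArg (fun t : ℤ => (t : ℂ)) h1
    rw [h2]
  have e6 : ∑ i, u i * ((n i : ℂ) - n (Λ.star i)) = 2 * ∑ i, u i * (n i : ℂ) := by
    have h1 := e2 fun i => (n i : ℂ)
    simp only [mul_sub, Finset.sum_sub_distrib, h1]
    ring
  have e7 : ∑ i, u i * ((Λ.dim i : ℂ) * ((mult w i : ℂ) - mult w (Λ.star i))) =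
      2 * ∑ i, u i * ((Λ.dim i : ℂ) * (mult w i : ℂ)) := by
    have h1 := e2 fun i => (Λ.dim i : ℂ) * (mult w i : ℂ)
    simp only [Λ.dim_star] at h1
    simp only [mul_sub, Finset.sum_sub_distrib, h1]
    ring
  rw [e3, e4]
  rw [e6, e7] at e5
  exact (mul_left_cancel₀ two_ne_zero e5).symm

theorem exp_mem : S_exp := by
  intro B _ _ D n I _ _ Λ 𝒜 _ _ cl co ev ε wt horth hε hε0 hid hev hco hlift hwt hwt' κ _ _ c hc
  have horth' : ∀ x : Letter Λ, ¬ Λ.orth x.1 = true := fun x => by rw [horth]; simp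
  rw [← TmM_coef hid (cst ℂ c)]
  refine Submodule.sum_mem _ fun α _ => ?_
  obtain ⟨F, hF⟩ : ∃ F : (κ → Letter Λ) → ℂ,
    F = fun X => evalF (cst ℂ c) (fun k => ev (α k) (X k)) := ⟨_, rfl⟩
  rw [← hF]
  by_cases hF0 : F = 0
  · rw [hF0, map_zero]
    exact Submodule.zero_mem _
  obtain ⟨w0, hw0⟩ : ∃ w0, F w0 ≠ 0 := by
    by_contra h
    push Not at h
    exact hF0 (funext h)
  -- the Lie algebra
  have hgl : ∀ b c' : Letter Λ, (dual b).1 = c'.1 → (c' ≠ dual b ∨ Λ.star b.1 = b.1) →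
      ∀ w : κ → Letter Λ, ∑ k, (JJ dual ε b (w k) * F (Function.update w k c') +
        JJ dual ε c' (w k) * F (Function.update w k b)) = 0 := by
    intro b d h1 h2 J
    obtain ⟨X, hX, hXe⟩ := hlift b d h1 h2
    have h2 := lieM_kills D hX hc
    have h3 := evalF_act X (cst ℂ c) (fun k => ev (α k) (J k))
    rw [h2, evalF_zero] at h3
    rw [h3]
    refine Finset.sum_congr rfl fun l _ => ?_
    rw [hXe, evalF_update_add, evalF_update_smul, evalF_update_smul]
    have h5 : ∀ z : Letter Λ, Function.update (fun k => ev (α k) (J k)) l (ev (α l) z) =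
        fun k => ev (α k) (Function.update J l z k) := by
      intro z
      funext k
      by_cases hk : k = l
      · subst hk
        rw [Function.update_self, Function.update_self]
      · rw [Function.update_of_ne hk, Function.update_of_ne hk]
    rw [h5, h5, hF]
    ring
  have hty : ∀ w, F w ≠ 0 → ∀ k, (w k).1 = cl (α k) := by
    intro J hJ k
    by_contra hk
    apply hJ
    rw [hF]
    have h3 : (fun k => ev (α k) (J k)) = Function.update (fun k => ev (α k) (J k)) k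
        ((0 : ℂ) • (0 : B → ℂ)) := by
      rw [zero_smul, ← hev _ _ hk, Function.update_eq_self]
    change evalF (cst ℂ c) (fun k => ev (α k) (J k)) = 0
    rw [h3, evalF_update_smul, zero_mul]
  have hzero : ∀ w, F w ≠ 0 → ∀ x : Letter Λ, Λ.star x.1 = x.1 → net w x = 0 := by
    intro w hw x hx
    have h1 := hgl x (dual x) rfl (Or.inr hx) w
    rw [kappa_part F w (hε x), neg_eq_zero, mul_eq_zero, mul_eq_zero] at h1
    rcases h1 with (h1 | h1) | h1
    · exact absurd h1 (hε0 x)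
    · exact_mod_cast h1
    · exact absurd h1 hw
  have heq : ∀ w, F w ≠ 0 → ∀ (i : I) (a b : Fin (Λ.dim i)), net w ⟨i, a⟩ = net w ⟨i, b⟩ := by
    intro w hw i a b
    by_cases hi : Λ.star i = i
    · rw [hzero w hw ⟨i, a⟩ hi, hzero w hw ⟨i, b⟩ hi]
    by_cases hab : a = b
    · rw [hab]
    obtain ⟨x, hx⟩ : ∃ x : Letter Λ, x = ⟨i, a⟩ := ⟨_, rfl⟩
    obtain ⟨y, hy⟩ : ∃ y : Letter Λ, y = ⟨i, b⟩ := ⟨_, rfl⟩
    rw [← hx, ← hy]
    have hxi : x.1 = i := by rw [hx]
    have hyi : y.1 = i := by rw [hy]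
    have hxy : x ≠ y := by
      rw [hx, hy]
      exact fun h => hab (mk_eq_iff.mp h)
    have hd : dual x ≠ dual y := fun h => hxy (by rw [← dual_dual x, h, dual_dual])
    have hdi : ∀ z z' : Letter Λ, z.1 = i → z'.1 = i → z ≠ dual z' := by
      intro z z' h1 h2 h
      apply hi
      have h3 := congrArg Sigma.fst h
      rw [dual_fst, h1, h2] at h3
      exact h3.symm
    have hxx := hdi x x hxi hxi
    have hxy' := hdi x y hxi hyi
    have hyx := hdi y x hyi hxi
    have hyy := hdi y y hyi hyi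
    obtain ⟨X1, hX1, hX1e⟩ := hlift x (dual y) (by rw [dual_fst, dual_fst, hxi, hyi])
      (Or.inl hd.symm)
    obtain ⟨X2, hX2, hX2e⟩ := hlift y (dual x) (by rw [dual_fst, dual_fst, hxi, hyi])
      (Or.inl hd)
    have hJ : ∀ u v : Letter Λ, JJ dual ε u v = if v = dual u then ε u else 0 := fun u v => rfl
    have key := diag_kills hc (lieM_bracket D hX1 hX2) (fun r => ε x * ε y *
      (((if r = x then 1 else 0) - (if r = dual x then 1 else 0)) -
        ((if r = y then 1 else 0) - (if r = dual y then 1 else 0)))) (ev := ev) (by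
      intro a' r
      rw [sub_mulVec, ← mulVec_mulVec, ← mulVec_mulVec, hX2e, hX1e, mulVec_add, mulVec_add,
        mulVec_smul, mulVec_smul, mulVec_smul, mulVec_smul, hX1e, hX1e, hX2e, hX2e]
      simp only [hJ, dual_dual, hε, if_neg hyx, if_neg hyx.symm, if_neg hxy', if_neg hxy'.symm,
        if_true]
      by_cases h1 : r = x
      · simp only [if_pos h1, if_neg (show r ≠ dual x by rw [h1]; exact hxx),
          if_neg (show r ≠ y by rw [h1]; exact hxy), if_neg (show r ≠ dual y by rw [h1]; exact hxy')]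
        rw [h1]
        module
      by_cases h2 : r = y
      · simp only [if_neg h1, if_neg (show r ≠ dual x by rw [h2]; exact hyx),
          if_pos h2, if_neg (show r ≠ dual y by rw [h2]; exact hyy)]
        rw [h2]
        module
      by_cases h3 : r = dual x
      · simp only [if_neg h1, if_pos h3, if_neg h2, if_neg (show r ≠ dual y by rw [h3]; exact hd)]
        rw [h3]
        module
      by_cases h4 : r = dual y
      · simp only [if_neg h1, if_neg h3, if_neg h2, if_pos h4]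
        rw [h4]
        module
      simp only [if_neg h1, if_neg h3, if_neg h2, if_neg h4]
      module) α (w := w) (by rw [hF] at hw; exact hw)
    have hs : ∀ z : Letter Λ, ∑ k, ((if w k = z then (1 : ℂ) else 0) -
        (if w k = dual z then 1 else 0)) = (net w z : ℂ) := by
      intro z
      have h1 := congrArg (fun t : ℤ => (t : ℂ)) (sum_single w z)
      push_cast at h1
      exact h1
    rw [← Finset.mul_sum, Finset.sum_sub_distrib, hs, hs, mul_eq_zero] at key
    rcases key with h1 | h1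
    · rcases mul_eq_zero.1 h1 with h2 | h2
      · exact absurd h2 (hε0 x)
      · exact absurd h2 (hε0 y)
    · exact_mod_cast sub_eq_zero.1 h1
  have hcore := core (ε := ε) (t := fun k => cl (α k)) (F := F) (fun x _ => hε x) hε0
    (fun b d _ h1 h2 w => hgl b d h1 (Or.inl h2) w)
    (fun b d h1 => absurd h1 (horth' b)) hty heq
    (fun w hw i hi => absurd hi (by rw [horth]; simp)) hw0
    (fun w hw x hx => absurd hx (horth' x))
  -- the weights
  have hw : ∀ σ, ∑ j : Σ i : I, Fin (mult w0 i), (Λ.dim j.1 : ℂ) * wt j.1 σ = 0 := by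
    intro σ
    obtain ⟨X, hX, hXe⟩ := hwt σ
    rw [sum_weight horth w0 (heq w0 hw0) (fun i => wt i σ) (fun i => hwt' i σ)]
    exact diag_kills hc hX (fun r => wt r.1 σ) hXe α (by rw [hF] at hw0; exact hw0)
  have hne : ∀ j : Σ i : I, Fin (mult w0 i), Λ.star j.1 ≠ j.1 := by
    rintro ⟨i, a⟩ h
    have h1 : 0 < mult w0 i := (Nat.zero_le _).trans_lt a.2
    unfold mult at h1
    split_ifs at h1 with h2 h3
    · rw [horth] at h3
      exact absurd h3 (by simp)
    · rw [hzero w0 hw0 ⟨i, ⟨0, h2⟩⟩ h] at h1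
      simp at h1
    · exact lt_irrefl 0 h1
  have h3 : TmM (fun k => co (α k)) F ∈
      (DetSpan ε (fun j : Σ i : I, Fin (mult w0 i) => j.1) κ).map (TmM (fun k => co (α k))) :=
    Submodule.mem_map_of_mem hcore
  unfold DetSpan at h3
  rw [Submodule.map_span] at h3
  refine Submodule.span_mono ?_ h3
  rintro _ ⟨_, ⟨p, ν, e, rfl⟩, rfl⟩
  let L := Σ i : I, Fin (mult w0 i)
  let η := Fintype.equivFin L
  refine ⟨Fintype.card L, p, fun j => (η.symm j).1, ν,
    (Equiv.sumCongr (Equiv.sigmaCongrLeft (β := fun j : L => Fin (Λ.dim j.1)) η.symm)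
      (Equiv.refl _)).trans e, α, fun j => hne _, fun σ => ?_, ?_⟩
  · rw [← hw σ]
    exact Fintype.sum_equiv η.symm _ _ fun j => rfl
  · rw [TmM_prodOf]
    funext w
    congr 1
    obtain ⟨G, hG⟩ : ∃ G : L → ℂ, G = fun j => (Matrix.of fun a b : Fin (Λ.dim j.1) =>
      co (α (e (Sum.inl ⟨j, a⟩))) ⟨j.1, b⟩ (w (e (Sum.inl ⟨j, a⟩)))).det := ⟨_, rfl⟩
    have h4 : ∏ j, G j = ∏ j, G (η.symm j) :=
      Fintype.prod_equiv η _ _ fun j => by rw [Equiv.symm_apply_apply]
    rw [hG] at h4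
    exact h4

end Pool.Agent.Q180.D3
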